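import Mathlib
import Pool.Agent.TH888.C.Val
import Pool.Agent.TH888.R.Base
import Pool.Agent.H447R2.ML.Spec

set_option autoImplicit false

/-!
# Generalized Wagstaff numbers: all fixed integer bases, error term and sets of exponents

For an integer `b ≥ 2`, a real `β > 0` and a prime `p` let `W b β p` be the `p`-rough part (the
product, with multiplicity, of the prime factors larger than `p`) of `⌊β b ^ p + 1 / (b + 1)⌋`.  For
`β = 1 / (b + 1)` this is the generalized Wagstaff number `(b ^ p + 1) / (b + 1)` itself, for all odd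
primes `p` not dividing `b + 1`.  For a set `S` let `M S b β n` be the number of primes `p ≤ n` in
`S` with `W b β p` prime, and let `V S n` be the sum of `log p / p` over the primes `p ≤ n` in `S`.
We prove that almost every `β > 0` has the following property for all bases `b ≥ 2` at once: the
number of primes `p ≤ n` with `W b β p` prime is
`(e ^ γ / log b) log n + O((log n) ^ (1/2) (log log n) ^ (5/2))`.  The same is proved for the
exponents in any set `S` of primes, with the dichotomy finite / infinite.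
-/

namespace Pool.Agent.Results.MP_ce8d0c_nt.AllFixedBases

open Filter Topology MeasureTheory Asymptotics

/-- The product, with multiplicity, of the prime factors of `m` that are larger than `p`. -/
def roughPart (p m : ℕ) : ℕ := (m.primeFactorsList.filter (fun r => p < r)).prod

/-- The `p`-rough part of `⌊β b ^ p + 1 / (b + 1)⌋`. -/
noncomputable def W (b : ℕ) (β : ℝ) (p : ℕ) : ℕ :=
  roughPart p ⌊β * (b : ℝ) ^ p + 1 / ((b : ℝ) + 1)⌋₊

open Classical in
/-- The number of primes `p ≤ n` in the set `S` for which `W b β p` is prime. -/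
noncomputable def M (S : Set ℕ) (b : ℕ) (β : ℝ) (n : ℕ) : ℕ :=
  ((Finset.range (n + 1)).filter (fun p => p.Prime ∧ p ∈ S ∧ (W b β p).Prime)).card

open Classical in
/-- The sum of `log p / p` over the primes `p ≤ n` in the set `S`. -/
noncomputable def V (S : Set ℕ) (n : ℕ) : ℝ :=
  ∑ p ∈ (Finset.range (n + 1)).filter (fun p => p.Prime ∧ p ∈ S), Real.log p / p

lemma V_eq (S : Set ℕ) (n : ℕ) : V S n = Pool.Agent.TH888.R.VS S n := by
  classical
  unfold V Pool.Agent.TH888.R.VS
  rw [Finset.sum_filter]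
  refine Finset.sum_congr rfl fun p _ => ?_
  by_cases h : p.Prime ∧ p ∈ S
  · rw [if_pos h, if_pos ⟨h.2, h.1⟩]
    rfl
  · rw [if_neg h, if_neg fun h1 => h ⟨h1.2, h1.1⟩]

/-- The generalized Wagstaff numbers. -/
lemma special {b : ℕ} (hb : 2 ≤ b) {p : ℕ} (hp : p.Prime) (hp2 : p ≠ 2) (hpd : ¬ p ∣ b + 1) :
    W b (1 / ((b : ℝ) + 1)) p * (b + 1) = b ^ p + 1 := by
  have hodd := hp.odd_of_ne_two hp2
  have hb1 : (0 : ℝ) < (b : ℝ) + 1 := by positivity
  have hcop : IsCoprime (b : ℤ) (-1) := isCoprime_one_right.neg_right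
  have hpd' : ¬ (p : ℤ) ∣ (b : ℤ) - -1 := by
    intro h
    rw [sub_neg_eq_add] at h
    exact hpd (by exact_mod_cast h)
  have h := Pool.Agent.H447R2.ML.rough_quot hcop (by omega) (by omega) hp hpd'
    (x := 1 / ((b : ℝ) + 1) * (b : ℝ) ^ p + 1 / ((b : ℝ) + 1)) (by
      push_cast
      rw [hodd.neg_one_pow]
      ring)
  have hgeom : (∑ i ∈ Finset.range p, (b : ℤ) ^ i * (-1) ^ (p - 1 - i)) * ((b : ℤ) - -1) =
      (b : ℤ) ^ p - (-1) ^ p := (Commute.all (b : ℤ) (-1)).geom_sum₂_mul p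
  rw [← h, hodd.neg_one_pow, sub_neg_eq_add, sub_neg_eq_add] at hgeom
  have h2 : ((W b (1 / ((b : ℝ) + 1)) p * (b + 1) : ℕ) : ℤ) = ((b ^ p + 1 : ℕ) : ℤ) := by
    push_cast
    exact hgeom
  exact_mod_cast h2

lemma M_eq (S : Set ℕ) (b : ℕ) (β : ℝ) (n : ℕ) :
    M S b β n = Pool.Agent.TH888.R.cS S (fun p => ⌊β * (b : ℝ) ^ p +
      (fun _ : ℕ => 1 / ((b : ℝ) + 1)) p⌋₊) n := by
  classical
  unfold M Pool.Agent.TH888.R.cS
  rfl

lemma pt (S : Set ℕ) : ∀ᵐ β : ℝ, 0 < β → ∀ b : ℕ, 2 ≤ b → Pool.Agent.TH888.R.Pt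
    (fun p => ⌊β * (b : ℝ) ^ p + (fun _ : ℕ => 1 / ((b : ℝ) + 1)) p⌋₊)
      (Real.exp Real.eulerMascheroniConstant / Real.log b) S := by
  have h : ∀ b : ℕ, ∀ᵐ β : ℝ, 2 ≤ b → 0 < β → Pool.Agent.TH888.R.Pt
      (fun p => ⌊β * (b : ℝ) ^ p + (fun _ : ℕ => 1 / ((b : ℝ) + 1)) p⌋₊)
        (Real.exp Real.eulerMascheroniConstant / Real.log b) S := by
    intro b
    by_cases hb : 2 ≤ b
    · have hb2 : (2 : ℝ) ≤ b := by exact_mod_cast hb
      have hb1 : (0 : ℝ) < (b : ℝ) + 1 := by positivity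
      have hg : ∀ p : ℕ, |(fun _ : ℕ => 1 / ((b : ℝ) + 1)) p| ≤ (1 : ℝ) * (1 : ℝ) ^ p := by
        intro p
        rw [one_pow, mul_one, abs_of_pos (by positivity), div_le_one hb1]
        linarith
      have h := Pool.Agent.TH888.R.pt_floor (α := (b : ℝ)) (κ := 1) (C := 1)
        (g := fun _ => 1 / ((b : ℝ) + 1)) (by linarith) zero_le_one (by linarith) hg
        (Pool.Agent.TH888.R.near_base hb zero_le_one (by linarith) hg) S
      filter_upwards [h] with β hβ _ h0
      exact hβ h0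
    · exact Eventually.of_forall fun β hb' => absurd hb' hb
  filter_upwards [ae_all_iff.2 h] with β hβ h0 b hb
  exact hβ b hb h0

/-- At `β = 1 / (b + 1)` the values are the generalized Wagstaff numbers, and almost every `β` is
such that for all bases `b ≥ 2` the law holds with a square root error term; for every set of primes
the number of prime values is finite or infinite according to the weight of the set, and in the
second case it obeys the corresponding law. -/
theorem result :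
    (∀ b : ℕ, 2 ≤ b → ∀ p : ℕ, p.Prime → p ≠ 2 → ¬ p ∣ b + 1 →
      W b (1 / ((b : ℝ) + 1)) p * (b + 1) = b ^ p + 1) ∧
    (∀ᵐ β : ℝ, 0 < β → ∀ b : ℕ, 2 ≤ b →
      (fun n : ℕ => (M Set.univ b β n : ℝ) -
        Real.exp Real.eulerMascheroniConstant / Real.log b * Real.log n) =O[atTop]
      (fun n : ℕ => Real.sqrt (Real.log n) * (Real.log (Real.log n)) ^ ((5 : ℝ) / 2))) ∧
    (∀ S : Set ℕ, Tendsto (V S) atTop atTop → ∀ᵐ β : ℝ, 0 < β → ∀ b : ℕ, 2 ≤ b →
      (fun n : ℕ => (M S b β n : ℝ) -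
        Real.exp Real.eulerMascheroniConstant / Real.log b * V S n) =O[atTop]
      (fun n : ℕ => Real.sqrt (V S n * Real.log (Real.log n)) *
        (Real.log (V S n * Real.log (Real.log n))) ^ 2)) ∧
    (∀ S : Set ℕ, ∀ᵐ β : ℝ, 0 < β → ∀ b : ℕ, 2 ≤ b →
      ({p : ℕ | p.Prime ∧ p ∈ S ∧ (W b β p).Prime}.Infinite ↔ Tendsto (V S) atTop atTop)) := by
  have hV : ∀ S, V S = Pool.Agent.TH888.R.VS S := fun S => funext fun n => V_eq S n
  refine ⟨fun b hb p hp hp2 hpd => special hb hp hp2 hpd, ?_, fun S hS => ?_, fun S => ?_⟩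
  · filter_upwards [pt Set.univ] with β hβ h0 b hb
    obtain ⟨B, hB, h⟩ := (hβ h0 b hb).law Pool.Agent.TH888.R.VS_univ_tendsto
    simp only [M_eq]
    exact Pool.Agent.TH888.R.bigO_all hB h
  · rw [hV] at hS ⊢
    filter_upwards [pt S] with β hβ h0 b hb
    obtain ⟨B, hB, h⟩ := (hβ h0 b hb).law hS
    simp only [M_eq]
    exact Pool.Agent.TH888.R.bigO_set hB hS h
  · rw [hV]
    filter_upwards [pt S] with β hβ h0 b hb
    constructor
    · intro hi
      by_contra hn
      exact hi ((hβ h0 b hb).fin hn)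
    · exact (hβ h0 b hb).inf

end Pool.Agent.Results.MP_ce8d0c_nt.AllFixedBases
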