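import Mathlib
import Pool.Agent.W66.LU
import Pool.Agent.H19P.TB

set_option autoImplicit false

/-!
# Generalized Wagstaff numbers and the last digits of random `b`-adic integers

Let `b ≥ 2`.  For a sequence `d` of digits in base `b` and a prime `p` let `N b d p` be the integer
`d 0 + d 1 * b + ... + d (p - 1) * b ^ (p - 1)` formed by the last `p` digits of the `b`-adic integer
`... d 2 d 1 d 0`, and let `W b d p` be its `p`-rough part (the product, with multiplicity, of its
prime factors larger than `p`).  The `b`-adic integer `1 / (b + 1)`, whose digits are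
`... 0 (b - 1) 0 (b - 1) 1`, gives the generalized Wagstaff numbers: for it
`W b d p = (b ^ p + 1) / (b + 1)` for all odd primes `p` not dividing `b + 1`.  For a set `S` let
`M S b d n` be the number of primes `p ≤ n` in `S` with `W b d p` prime, and let `V S n` be the sum
of `log p / p` over the primes `p ≤ n` in `S`.

The digits are independent and uniformly distributed (Haar measure on the `b`-adic integers).  We
prove that for almost every sequence of digits with last digit `d 0` prime to `b` the number of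
primes `p ≤ n` with `W b d p` prime is
`(e ^ γ / log b) log n + O((log n) ^ (1/2) (log log n) ^ (5/2))`.  The same is proved for the
exponents in any set `S` of primes, with the dichotomy finite / infinite.
-/

namespace Pool.Agent.Results.MP_ce8d0c_nt.LastDigits

open Filter Topology MeasureTheory Asymptotics

/-- The product, with multiplicity, of the prime factors of `m` that are larger than `p`. -/
def roughPart (p m : ℕ) : ℕ := (m.primeFactorsList.filter (fun r => p < r)).prod

/-- The integer formed by the last `p` digits of the `b`-adic integer with digits `d`. -/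
def N (b : ℕ) (d : ℕ → Fin b) (p : ℕ) : ℕ := ∑ i ∈ Finset.range p, (d i : ℕ) * b ^ i

/-- The `p`-rough part of the integer formed by the last `p` digits. -/
def W (b : ℕ) (d : ℕ → Fin b) (p : ℕ) : ℕ := roughPart p (N b d p)

open Classical in
/-- The number of primes `p ≤ n` in the set `S` for which `W b d p` is prime. -/
noncomputable def M (S : Set ℕ) (b : ℕ) (d : ℕ → Fin b) (n : ℕ) : ℕ :=
  ((Finset.range (n + 1)).filter (fun p => p.Prime ∧ p ∈ S ∧ (W b d p).Prime)).card

open Classical in
/-- The sum of `log p / p` over the primes `p ≤ n` in the set `S`. -/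
noncomputable def V (S : Set ℕ) (n : ℕ) : ℝ :=
  ∑ p ∈ (Finset.range (n + 1)).filter (fun p => p.Prime ∧ p ∈ S), Real.log p / p

/-- Independent uniformly distributed digits in base `b`. -/
noncomputable def digits (b : ℕ) : Measure (ℕ → Fin b) :=
  Measure.infinitePi (fun _ : ℕ => ProbabilityTheory.uniformOn (Set.univ : Set (Fin b)))

lemma V_eq (S : Set ℕ) (n : ℕ) : V S n = Pool.Agent.TH888.R.VS S n := by
  classical
  unfold V Pool.Agent.TH888.R.VS
  rw [Finset.sum_filter]
  refine Finset.sum_congr rfl fun p _ => ?_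
  by_cases h : p.Prime ∧ p ∈ S
  · rw [if_pos h, if_pos ⟨h.2, h.1⟩]
    rfl
  · rw [if_neg h, if_neg fun h1 => h ⟨h1.2, h1.1⟩]

lemma N_odd {b : ℕ} (hb : 2 ≤ b) {d : ℕ → Fin b} (h0 : (d 0 : ℕ) = 1)
    (hodd : ∀ i, (d (2 * i + 1) : ℕ) = b - 1) (hev : ∀ i, (d (2 * i + 2) : ℕ) = 0) (j : ℕ) :
    N b d (2 * j + 1) * (b + 1) = b ^ (2 * j + 1) + 1 := by
  induction j with
  | zero =>
    unfold N
    simp [h0]
  | succ j ih =>
    have e : N b d (2 * (j + 1) + 1) = N b d (2 * j + 1) + (b - 1) * b ^ (2 * j + 1) := by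
      unfold N
      rw [show 2 * (j + 1) + 1 = 2 * j + 1 + 1 + 1 by ring, Finset.sum_range_succ,
        Finset.sum_range_succ, hodd j, show 2 * j + 1 + 1 = 2 * j + 2 by ring, hev j]
      ring
    obtain ⟨c, rfl⟩ : ∃ c, b = c + 1 := ⟨b - 1, by omega⟩
    rw [e, add_mul, ih, Nat.add_sub_cancel]
    ring

/-- The generalized Wagstaff numbers. -/
lemma special {b : ℕ} (hb : 2 ≤ b) {d : ℕ → Fin b} (h0 : (d 0 : ℕ) = 1)
    (hodd : ∀ i, (d (2 * i + 1) : ℕ) = b - 1) (hev : ∀ i, (d (2 * i + 2) : ℕ) = 0)
    {p : ℕ} (hp : p.Prime) (hp2 : p ≠ 2) (hpd : ¬ p ∣ b + 1) :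
    W b d p * (b + 1) = b ^ p + 1 := by
  obtain ⟨j, hj⟩ := hp.odd_of_ne_two hp2
  have h1 := N_odd hb h0 hodd hev j
  rw [← hj] at h1
  have h2 : W b d p = N b d p := Pool.Agent.W66L.rough_wagstaff hb hp hp2 hpd h1
  rw [h2]
  exact h1

lemma M_eq (S : Set ℕ) (b : ℕ) (d : ℕ → Fin b) (n : ℕ) :
    M S b d n = Pool.Agent.TH888.R.cS S (fun p => Pool.Agent.W66L.dsum b p d) n := by
  classical
  unfold M Pool.Agent.TH888.R.cS
  rfl

lemma pt {b : ℕ} (hb : 2 ≤ b) (S : Set ℕ) : ∀ᵐ d ∂(digits b), (d 0 : ℕ).Coprime b →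
    Pool.Agent.TH888.R.Pt (fun p => Pool.Agent.W66L.dsum b p d)
      (Real.exp Real.eulerMascheroniConstant / Real.log b) S := by
  haveI : NeZero b := ⟨by omega⟩
  have h := Pool.Agent.H19P.pt_full hb (Pool.Agent.W66L.full_digits b) S
  have e : digits b = Pool.Agent.W66L.digitMeasure b := rfl
  rw [e]
  filter_upwards [h] with d hd hc
  refine hd ?_
  unfold Pool.Agent.W66L.dsum
  simpa using hc

/-- For the digits `... 0 (b - 1) 0 (b - 1) 1` of `1 / (b + 1)` the values are the generalized
Wagstaff numbers; for every base `b ≥ 2` and almost every sequence of digits whose last digit is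
prime to `b` the law holds with a square root error term; for every set of primes the number of prime
values is finite or infinite according to the weight of the set, and in the second case it obeys the
corresponding law. -/
theorem result (b : ℕ) (hb : 2 ≤ b) :
    (∃ d : ℕ → Fin b, (d 0 : ℕ) = 1 ∧
      (∀ i, (d (2 * i + 1) : ℕ) = b - 1 ∧ (d (2 * i + 2) : ℕ) = 0) ∧
      ∀ p : ℕ, p.Prime → p ≠ 2 → ¬ p ∣ b + 1 → W b d p * (b + 1) = b ^ p + 1) ∧
    (∀ᵐ d ∂(digits b), (d 0 : ℕ).Coprime b →
      (fun n : ℕ => (M Set.univ b d n : ℝ) -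
        Real.exp Real.eulerMascheroniConstant / Real.log b * Real.log n) =O[atTop]
      (fun n : ℕ => Real.sqrt (Real.log n) * (Real.log (Real.log n)) ^ ((5 : ℝ) / 2))) ∧
    (∀ S : Set ℕ, Tendsto (V S) atTop atTop → ∀ᵐ d ∂(digits b), (d 0 : ℕ).Coprime b →
      (fun n : ℕ => (M S b d n : ℝ) -
        Real.exp Real.eulerMascheroniConstant / Real.log b * V S n) =O[atTop]
      (fun n : ℕ => Real.sqrt (V S n * Real.log (Real.log n)) *
        (Real.log (V S n * Real.log (Real.log n))) ^ 2)) ∧
    (∀ S : Set ℕ, ∀ᵐ d ∂(digits b), (d 0 : ℕ).Coprime b →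
      ({p : ℕ | p.Prime ∧ p ∈ S ∧ (W b d p).Prime}.Infinite ↔ Tendsto (V S) atTop atTop)) := by
  have hV : ∀ S, V S = Pool.Agent.TH888.R.VS S := fun S => funext fun n => V_eq S n
  refine ⟨?_, ?_, fun S hS => ?_, fun S => ?_⟩
  · refine ⟨fun i => if i = 0 then ⟨1, by omega⟩ else if i % 2 = 1 then ⟨b - 1, by omega⟩ else
      ⟨0, by omega⟩, by simp, fun i => ⟨?_, ?_⟩, fun p hp hp2 hpd => ?_⟩
    · dsimp only
      rw [if_neg (by omega), if_pos (by omega)]
    · dsimp only
      rw [if_neg (by omega), if_neg (by omega)]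
    · refine special hb (by simp) (fun i => ?_) (fun i => ?_) hp hp2 hpd
      · rw [if_neg (by omega), if_pos (by omega)]
      · rw [if_neg (by omega), if_neg (by omega)]
  · filter_upwards [pt hb Set.univ] with d hd h0
    obtain ⟨B, hB, h⟩ := (hd h0).law Pool.Agent.TH888.R.VS_univ_tendsto
    simp only [M_eq]
    exact Pool.Agent.TH888.R.bigO_all hB h
  · rw [hV] at hS ⊢
    filter_upwards [pt hb S] with d hd h0
    obtain ⟨B, hB, h⟩ := (hd h0).law hS
    simp only [M_eq]
    exact Pool.Agent.TH888.R.bigO_set hB hS h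
  · rw [hV]
    filter_upwards [pt hb S] with d hd h0
    constructor
    · intro hi
      by_contra hn
      exact hi ((hd h0).fin hn)
    · exact (hd h0).inf

end Pool.Agent.Results.MP_ce8d0c_nt.LastDigits
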