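import Mathlib
import Pool.Agent.Y895.SQ.S13
import Pool.Agent.Y895.PS.R4

set_option autoImplicit false

/-!
# Primes that share their leading digits with the generalized Wagstaff numbers, all bases at once

For `b ≥ 2` let `Q b n = ⌊(b ^ n + 1) / (b + 1)⌋`, which is `(b ^ n + 1) / (b + 1)` for odd `n`.  For
a sequence `m` and a real number `t` in `[0, 1)` replace the last `m n` base `b` digits of `Q b n`
by the first `m n` base `b` digits of `t`; let `N b m t n` be the result.  For a set `S` let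
`M b m S t x` be the number of odd `n ≤ x` in `S` for which `N b m t n` is prime, and let `V S x` be
the sum of `1 / n` over the odd `n ≤ x` in `S`.

We prove the following for all families of sequences `m b` that are eventually monotone with
`n - m b n → ∞`.

* A positive proportion of prescribed digits: for every `ε` in `(0, 1)` there is `δ > 0` such that,
  if `m b n ≥ (1 - δ) n` for large `n` and `m b` grows at least linearly, for every `b ≥ 2`, then for
  every set `S` and almost every `t`, for all bases `b` simultaneously, there are infinitely many odd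
  `n` in `S` with `N b (m b) t n` prime if and only if `V S x → ∞`, and in this case their number
  lies between `(1 - ε) V S x / log b` and `(1 + ε) V S x / log b` for large `x`.
* If `n - m b n = o(n)` and `m b` grows at least linearly, for every `b ≥ 2`, then for every set `S`
  with `V S x → ∞` and almost every `t` the number of primes is asymptotic to `V S x / log b`, for
  all bases simultaneously.
* If `m b n ≥ n - κ b n / log n` for large `n`, for every `b ≥ 2`, where the `κ b` are certain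
  positive constants, then the same dichotomy holds, and for almost every `t`, for all bases `b`
  simultaneously, the number of odd `n ≤ x` with `N b (m b) t n` prime is `log x / (2 log b)`, and
  `V S x / log b` for every set `S` with `V S x → ∞`, up to a square root error term.
-/

namespace Pool.Agent.Results.MP_ce8d0c_nt.LeadingDigits

open Filter Topology MeasureTheory Asymptotics

/-- The generalized Wagstaff numbers (for odd `n`). -/
def Q (b n : ℕ) : ℕ := (b ^ n + 1) / (b + 1)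

/-- `Q b n` with the last `m n` base `b` digits replaced by the first `m n` digits of `t`. -/
noncomputable def N (b : ℕ) (m : ℕ → ℕ) (t : ℝ) (n : ℕ) : ℕ :=
  b ^ m n * (Q b n / b ^ m n) + ⌊(b : ℝ) ^ m n * t⌋₊

open Classical in
/-- The number of odd `n ≤ x` in the set `S` for which `N b m t n` is prime. -/
noncomputable def M (b : ℕ) (m : ℕ → ℕ) (S : Set ℕ) (t : ℝ) (x : ℕ) : ℕ :=
  ((Finset.range (x + 1)).filter (fun n => Odd n ∧ n ∈ S ∧ (N b m t n).Prime)).card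

open Classical in
/-- The sum of `1 / n` over the odd numbers `n ≤ x` in the set `S`. -/
noncomputable def V (S : Set ℕ) (x : ℕ) : ℝ :=
  ∑ n ∈ (Finset.range (x + 1)).filter (fun n => Odd n ∧ n ∈ S), 1 / (n : ℝ)

/-- The number of digits that are left free when about `κ n / log n` digits are prescribed. -/
noncomputable def free (κ : ℝ) (n : ℕ) : ℕ := n - ⌊κ * n / Real.log n⌋₊

/-- The number of digits that are left free when about `δ n` digits are prescribed. -/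
noncomputable def most (δ : ℝ) (n : ℕ) : ℕ := n - ⌊δ * n⌋₊

/-- The sequence is eventually monotone and the number of prescribed digits tends to infinity. -/
def Adm (m : ℕ → ℕ) : Prop :=
  (∀ᶠ n in atTop, m n ≤ m (n + 1)) ∧ Tendsto (fun n => n - m n) atTop atTop

/-- The sequence grows at least linearly, up to a bounded amount. -/
def Linear (m : ℕ → ℕ) : Prop := ∃ σ D : ℝ, 0 < σ ∧ ∀ᶠ p : ℕ in atTop, ∀ q ≥ p,
  σ * ((q : ℝ) - p) - D ≤ (m q : ℝ) - m p

/-- the odd elements of a set -/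
def od (S : Set ℕ) : Set ℕ := {n | Odd n ∧ n ∈ S}

lemma V_eq (S : Set ℕ) (x : ℕ) : V S x = Pool.Agent.Y895.SQ.VN (od S) x := by
  classical
  unfold V Pool.Agent.Y895.SQ.VN Pool.Agent.Y895.SQ.wn
  rw [Finset.sum_filter]
  refine Finset.sum_congr rfl fun q _ => ?_
  by_cases h : Odd q ∧ q ∈ S
  · have h' : q ∈ od S := h
    rw [if_pos h, if_pos h']
  · have h' : q ∉ od S := h
    rw [if_neg h, if_neg h']

lemma M_eq (b : ℕ) (m : ℕ → ℕ) (S : Set ℕ) (t : ℝ) (x : ℕ) :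
    M b m S t x = Pool.Agent.Y895.SQ.cN (od S) (N b m t) x := by
  classical
  unfold M Pool.Agent.Y895.SQ.cN
  congr 1
  ext n
  rw [Finset.mem_filter, Finset.mem_filter]
  exact ⟨fun h => ⟨h.1, ⟨h.2.1, h.2.2.1⟩, h.2.2.2⟩, fun h => ⟨h.1, h.2.1.1, h.2.1.2, h.2.2⟩⟩

lemma inf_eq (b : ℕ) (m : ℕ → ℕ) (S : Set ℕ) (t : ℝ) :
    {n : ℕ | Odd n ∧ n ∈ S ∧ (N b m t n).Prime} = {n | n ∈ od S ∧ (N b m t n).Prime} := by
  ext n
  exact ⟨fun h => ⟨⟨h.1, h.2.1⟩, h.2.2⟩, fun h => ⟨h.1.1, h.1.2, h.2⟩⟩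

lemma Q_bounds {b : ℕ} (hb : 2 ≤ b) (p : ℕ) (hp : 2 ≤ p) :
    1 / (2 * ((b : ℝ) + 1)) * (b : ℝ) ^ p ≤ Q b p ∧ (Q b p : ℝ) ≤ 1 * (b : ℝ) ^ p := by
  have h1 : (b ^ p + 1) < (b + 1) * Q b p + (b + 1) := by
    have h2 := Nat.div_add_mod (b ^ p + 1) (b + 1)
    have h3 : (b ^ p + 1) % (b + 1) < b + 1 := Nat.mod_lt (b ^ p + 1) (Nat.succ_pos b)
    unfold Q
    omega
  have h2 : Q b p ≤ b ^ p := by
    have h3 : 1 ≤ b ^ p := Nat.one_le_pow _ _ (by omega)
    have h4 : b ^ p + 1 ≤ b ^ p * (b + 1) := by nlinarith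
    calc Q b p ≤ b ^ p * (b + 1) / (b + 1) := Nat.div_le_div_right h4
      _ = b ^ p := Nat.mul_div_cancel _ (Nat.succ_pos b)
  have h3 : 2 * b ≤ b ^ p := by
    calc 2 * b ≤ b * b := Nat.mul_le_mul_right _ hb
      _ = b ^ 2 := (sq b).symm
      _ ≤ b ^ p := Nat.pow_le_pow_right (by omega) hp
  have h1' : (b : ℝ) ^ p + 1 < (b + 1) * Q b p + (b + 1) := by exact_mod_cast h1
  have h2' : (Q b p : ℝ) ≤ (b : ℝ) ^ p := by exact_mod_cast h2
  have h3' : 2 * (b : ℝ) ≤ (b : ℝ) ^ p := by exact_mod_cast h3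
  have hb0 : (0 : ℝ) < b := by exact_mod_cast (by omega : 0 < b)
  refine ⟨?_, by rw [one_mul]; exact h2'⟩
  rw [one_div_mul_eq_div, div_le_iff₀ (by positivity)]
  nlinarith

/-- The leading base `b` digits are those of `(b ^ n + 1) / (b + 1)`.  With a small positive
proportion of prescribed digits the dichotomy and the law with a constant close to `1 / log b` hold
for almost every `t`, for all bases simultaneously and for every set `S`, with `o(n)` prescribed
digits the law with the constant `1 / log b`, and with `κ b n / log n` prescribed digits the law with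
a square root error term. -/
theorem result :
    (∀ b n : ℕ, Odd n → (b + 1) * Q b n = b ^ n + 1) ∧
    (∀ b ≥ 2, ∀ (m : ℕ → ℕ) (t : ℝ) (n : ℕ), 0 ≤ t → t < 1 →
      N b m t n / b ^ m n = Q b n / b ^ m n) ∧
    (∀ ε : ℝ, 0 < ε → ε < 1 → ∃ δ : ℝ, 0 < δ ∧
      (Adm (most δ) ∧ Linear (most δ) ∧ ∀ᶠ n : ℕ in atTop, (1 - δ) * n ≤ most δ n) ∧
      ∀ m : ℕ → ℕ → ℕ, (∀ b ≥ 2, Adm (m b) ∧ Linear (m b) ∧
          ∀ᶠ n : ℕ in atTop, (1 - δ) * n ≤ m b n) →
        ∀ S : Set ℕ, ∀ᵐ t : ℝ, 0 ≤ t → t < 1 → ∀ b ≥ 2,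
          ({n : ℕ | Odd n ∧ n ∈ S ∧ (N b (m b) t n).Prime}.Infinite ↔
            Tendsto (V S) atTop atTop) ∧
          (Tendsto (V S) atTop atTop → ∀ᶠ x : ℕ in atTop,
            (1 - ε) / Real.log b * V S x ≤ M b (m b) S t x ∧
            (M b (m b) S t x : ℝ) ≤ (1 + ε) / Real.log b * V S x)) ∧
    (∀ m : ℕ → ℕ → ℕ, (∀ b ≥ 2, Adm (m b) ∧ Linear (m b) ∧
        ∀ δ : ℝ, 0 < δ → ∀ᶠ n : ℕ in atTop, (1 - δ) * n ≤ m b n) →
      ∀ S : Set ℕ, Tendsto (V S) atTop atTop → ∀ᵐ t : ℝ, 0 ≤ t → t < 1 → ∀ b : ℕ, b ≥ 2 →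
        Tendsto (fun x : ℕ => (M b (m b) S t x : ℝ) / V S x) atTop (𝓝 (1 / Real.log b))) ∧
    ∃ κ : ℕ → ℝ, (∀ b ≥ 2, 0 < κ b ∧ Adm (free (κ b)) ∧
        ∀ᶠ n : ℕ in atTop, (n : ℝ) - κ b * n / Real.log n ≤ free (κ b) n) ∧
      ∀ m : ℕ → ℕ → ℕ, (∀ b ≥ 2, Adm (m b) ∧
          ∀ᶠ n : ℕ in atTop, (n : ℝ) - κ b * n / Real.log n ≤ m b n) →
        (∀ᵐ t : ℝ, 0 ≤ t → t < 1 → ∀ b ≥ 2,
          (fun x : ℕ => (M b (m b) Set.univ t x : ℝ) -
            1 / (2 * Real.log b) * Real.log x) =O[atTop]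
          (fun x : ℕ => Real.sqrt (Real.log x) * (Real.log (Real.log x)) ^ ((5 : ℝ) / 2))) ∧
        (∀ S : Set ℕ, ∀ᵐ t : ℝ, 0 ≤ t → t < 1 → ∀ b ≥ 2,
          ({n : ℕ | Odd n ∧ n ∈ S ∧ (N b (m b) t n).Prime}.Infinite ↔
            Tendsto (V S) atTop atTop) ∧
          (Tendsto (V S) atTop atTop →
            (fun x : ℕ => (M b (m b) S t x : ℝ) - 1 / Real.log b * V S x) =O[atTop]
            (fun x : ℕ => Real.sqrt (V S x * Real.log (Real.log x)) *
              (Real.log (V S x * Real.log (Real.log x))) ^ 2))) := by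
  have hV : ∀ S, V S = Pool.Agent.Y895.SQ.VN (od S) := fun S => funext fun n => V_eq S n
  have hQ : ∀ b : ℕ, 2 ≤ b → ∀ᶠ p : ℕ in atTop, 1 / (2 * ((b : ℝ) + 1)) * (b : ℝ) ^ p ≤ Q b p ∧
      (Q b p : ℝ) ≤ 1 * (b : ℝ) ^ p := by
    intro b hb
    filter_upwards [eventually_ge_atTop 2] with p hp using Q_bounds hb p hp
  have hc : ∀ b : ℕ, (0 : ℝ) < 1 / (2 * ((b : ℝ) + 1)) := fun b => by positivity
  have hasy : ∀ ε : ℝ, 0 < ε → ε < 1 → ∃ δ : ℝ, 0 < δ ∧ δ < 1 ∧
      ∀ m : ℕ → ℕ → ℕ, (∀ b ≥ 2, Adm (m b) ∧ Linear (m b) ∧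
          ∀ᶠ n : ℕ in atTop, (1 - δ) * n ≤ m b n) →
        ∀ S : Set ℕ, ∀ᵐ t : ℝ, 0 ≤ t → t < 1 → ∀ b ≥ 2,
          ({n : ℕ | Odd n ∧ n ∈ S ∧ (N b (m b) t n).Prime}.Infinite ↔
            Tendsto (V S) atTop atTop) ∧
          (Tendsto (V S) atTop atTop → ∀ᶠ x : ℕ in atTop,
            (1 - ε) / Real.log b * V S x ≤ M b (m b) S t x ∧
            (M b (m b) S t x : ℝ) ≤ (1 + ε) / Real.log b * V S x) := by
    intro ε hε hε1
    obtain ⟨δ, hδ, hδ1, hord⟩ := Pool.Agent.Y895.PS.asy_base_trunc ε hε hε1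
    refine ⟨δ, hδ, hδ1, fun m hk S => ?_⟩
    have h1 : ∀ b : ℕ, ∀ᵐ t : ℝ, 2 ≤ b → 0 ≤ t → t < 1 →
        Pool.Agent.Y895.SQ.OrdN (N b (m b) t) ((1 - ε) / Real.log b) ((1 + ε) / Real.log b)
          (od S) := by
      intro b
      by_cases hb : 2 ≤ b
      · have h2 := hord b hb _ 1 (hc b) one_pos (Q b) (m b) (hQ b hb) (hk b hb).1.1
          (hk b hb).2.1 (Pool.Agent.Y895.OL.pow_le_of_tendsto hb (hc b)
            ((hQ b hb).mono fun p hp => hp.1) (hk b hb).1.2) (hk b hb).2.2 (od S)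
        filter_upwards [h2] with t ht _
        exact ht
      · exact Eventually.of_forall fun t h => absurd h hb
    filter_upwards [ae_all_iff.2 h1] with t ht h0 h1 b hb
    have h2 := ht b hb h0 h1
    rw [hV, inf_eq]
    simp only [M_eq]
    exact ⟨h2.inf, h2.law⟩
  refine ⟨fun b n hn => Nat.mul_div_cancel' ?_,
    fun b hb m t p h0 h1 => Pool.Agent.Y895.PM.upper_digits hb h0 h1, fun ε hε hε1 => ?_,
    fun m hk S hS => ?_, ?_⟩
  · have := hn.nat_add_dvd_pow_add_pow b 1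
    rwa [one_pow] at this
  · obtain ⟨δ, hδ, hδ1, h⟩ := hasy ε hε hε1
    obtain ⟨hd2, hd3⟩ := Pool.Agent.Y895.OL.dfree_spec hδ hδ1
    refine ⟨δ, hδ, ⟨⟨Eventually.of_forall fun p => Pool.Agent.Y895.OL.dfree_mono hδ hδ1 p, hd3⟩,
      Pool.Agent.Y895.SQ.dfree_grow hδ hδ1, ?_⟩, h⟩
    filter_upwards [hd2] with p hp using hp.2.2
  · have h1 : ∀ k : ℕ, ∀ᵐ t : ℝ, 0 ≤ t → t < 1 → ∀ b : ℕ, b ≥ 2 → ∀ᶠ x : ℕ in atTop,
        (1 - 1 / ((k : ℝ) + 2)) * (1 / Real.log b) * V S x ≤ M b (m b) S t x ∧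
        (M b (m b) S t x : ℝ) ≤ (1 + 1 / ((k : ℝ) + 2)) * (1 / Real.log b) * V S x := by
      intro k
      obtain ⟨δ, hδ, hδ1, h⟩ := hasy (1 / ((k : ℝ) + 2)) (by positivity) (by
        rw [div_lt_one (by positivity)]
        have : (0 : ℝ) ≤ k := Nat.cast_nonneg k
        linarith)
      filter_upwards [h m (fun b hb => ⟨(hk b hb).1, (hk b hb).2.1, (hk b hb).2.2 δ hδ⟩) S]
        with t ht h0 h1 b hb
      have h2 := (ht h0 h1 b hb).2 hS
      filter_upwards [h2] with x hx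
      rw [mul_one_div, mul_one_div]
      exact hx
    filter_upwards [ae_all_iff.2 h1] with t ht h0 h1 b hb
    exact Pool.Agent.Y895.PS.lim_of_close (by
      have : (0 : ℝ) < Real.log b := Real.log_pos (by exact_mod_cast (by omega : 1 < b))
      positivity) hS fun k => ht k h0 h1 b hb
  have hlaw : ∀ b : ℕ, ∃ κ : ℝ, 2 ≤ b → 0 < κ ∧
      ∀ c C : ℝ, 0 < c → 0 < C → ∀ Q m : ℕ → ℕ,
      (∀ᶠ p : ℕ in atTop, c * (b : ℝ) ^ p ≤ Q p ∧ (Q p : ℝ) ≤ C * (b : ℝ) ^ p) →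
      (∀ᶠ p in atTop, m p ≤ m (p + 1)) → (∀ᶠ p in atTop, b ^ m p ≤ Q p) →
      (∀ᶠ p : ℕ in atTop, (p : ℝ) - κ * p / Real.log p ≤ m p) →
      ∀ S : Set ℕ, ∀ᵐ t : ℝ, 0 ≤ t → t < 1 → Pool.Agent.Y895.SQ.PtN
        (fun p => b ^ m p * (Q p / b ^ m p) + ⌊(b : ℝ) ^ m p * t⌋₊) (1 / Real.log b) S := by
    intro b
    by_cases hb : 2 ≤ b
    · obtain ⟨κ, h⟩ := Pool.Agent.Y895.SQ.law_base_trunc b hb
      exact ⟨κ, fun _ => h⟩
    · exact ⟨0, fun h => absurd h hb⟩
  choose κ hlaw using hlaw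
  refine ⟨κ, fun b hb => ?_, fun m hk => ?_⟩
  · obtain ⟨hf1, hf2⟩ := Pool.Agent.Y895.PM.mfree_spec (hlaw b hb).1
    refine ⟨(hlaw b hb).1, ⟨hf1, Pool.Agent.Y895.PM.mfree_tendsto (hlaw b hb).1⟩, ?_⟩
    filter_upwards [hf2] with p hp using hp.2.2
  · have hpt : ∀ S : Set ℕ, ∀ᵐ t : ℝ, ∀ b : ℕ, 2 ≤ b → 0 ≤ t → t < 1 →
        Pool.Agent.Y895.SQ.PtN (N b (m b) t) (1 / Real.log b) (od S) := by
      intro S
      rw [ae_all_iff]
      intro b
      by_cases hb : 2 ≤ b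
      · have h2 := (hlaw b hb).2 _ 1 (hc b) one_pos (Q b) (m b) (hQ b hb) (hk b hb).1.1
          (Pool.Agent.Y895.OL.pow_le_of_tendsto hb (hc b)
            ((hQ b hb).mono fun p hp => hp.1) (hk b hb).1.2) (hk b hb).2 (od S)
        filter_upwards [h2] with t ht _
        exact ht
      · exact Eventually.of_forall fun t h => absurd h hb
    refine ⟨?_, fun S => ?_⟩
    · have e : od Set.univ = {n | Odd n} := by
        ext n
        simp [od]
      filter_upwards [hpt Set.univ] with t ht h0 h1 b hb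
      have h2 := ht b hb h0 h1
      rw [e] at h2
      obtain ⟨B, hB, h⟩ := h2.law Pool.Agent.Y895.SQ.VN_odd_tendsto
      have h3 := Pool.Agent.Y895.SQ.bigO_odd hB h
      have e2 : 1 / Real.log b * (1 / 2) = 1 / (2 * Real.log b) := by
        rw [one_div_mul_one_div, mul_comm]
      rw [e2] at h3
      simp only [M_eq, e]
      exact h3
    · filter_upwards [hpt S] with t ht h0 h1 b hb
      have h2 := ht b hb h0 h1
      rw [hV, inf_eq]
      refine ⟨h2.inf, fun hS => ?_⟩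
      obtain ⟨B, hB, h⟩ := h2.law hS
      simp only [M_eq]
      exact Pool.Agent.TH888.R.bigO_set hB hS h

end Pool.Agent.Results.MP_ce8d0c_nt.LeadingDigits
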